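import Pool.Agent.K6.H19.GK.Res

/-!
# Line bundles given by invariant hermitian forms
-/

set_option autoImplicit false

namespace Pool.Agent.K6.H19.GK

open Filter Topology Asymptotics Complex
open Pool.Agent.W594.SYZ2 (IsHermitian)
open Pool.Agent.W594.SYZ2.TQ (h_add_right h_smul_right h_zero_left h_zero_right h_neg_left
  h_sub_left h_re_symm)
open Pool.Agent.K6.H19.GI (Lat kum IsGau std frm kap Nf Dat cs_of_psd kap_pos kap_ne
  exp_int_shift thE thB kum_spec thE_eq herm_differentiable)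
open Pool.Agent.R895 (BlBundle act N1 N1s IsClass Normalizes)
open Pool.Agent.T6.H34.EK (Pres semi IsSemi QBundle IsCls NSs NS form coef integral semiample effective
  span nefCone effCone IsPullback nefEff IsAutGroup HasDomain)
open Pool.Agent.Y167 (AffGrp cone)

variable {n : ℕ} {G : Subgroup ((Fin n → ℂ) ≃ₗ[ℂ] (Fin n → ℂ))} {hG : PresLat G}
  {h : (Fin n → ℂ) → (Fin n → ℂ) → ℂ}

/-- The form is invariant under `G`. -/
def Inv (G : Subgroup ((Fin n → ℂ) ≃ₗ[ℂ] (Fin n → ℂ))) (h : (Fin n → ℂ) → (Fin n → ℂ) → ℂ) : Prop :=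
  ∀ g ∈ G, ∀ u w, h (g u) (g w) = h u w

theorem grp_spec (γ : grp G hG) : ∃ (g : G) (l : Fin n → ℂ), Lat l ∧
    ∀ v, act γ v = (g : (Fin n → ℂ) ≃ₗ[ℂ] (Fin n → ℂ)) v + l := by
  obtain ⟨g, hg, l, hl, h⟩ := γ.2
  exact ⟨⟨g, hg⟩, l, hl, h⟩

/-- The factor of automorphy with Chern form `4 κ h`. -/
noncomputable def qE (h : (Fin n → ℂ) → (Fin n → ℂ) → ℂ) (γ : grp G hG) (v : Fin n → ℂ) : ℂ :=
  exp (4 * (Real.pi * kap * (h (act γ v) (act γ 0) - h (act γ 0) (act γ 0) / 2)))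

theorem qE_eq (hh : IsHermitian h) {γ : grp G hG} {g : G} {l : Fin n → ℂ}
    (hγ : ∀ v, act γ v = (g : (Fin n → ℂ) ≃ₗ[ℂ] (Fin n → ℂ)) v + l) (v : Fin n → ℂ) :
    qE h γ v = exp (4 * (Real.pi * kap *
      (h ((g : (Fin n → ℂ) ≃ₗ[ℂ] (Fin n → ℂ)) v) l + h l l / 2))) := by
  unfold qE
  rw [hγ, hγ, map_zero, zero_add, hh.add_left]
  congr 3
  ring

theorem act_mul (γ δ : grp G hG) (v : Fin n → ℂ) : act (γ * δ) v = act γ (act δ v) := rfl

theorem qE_mul (hh : IsHermitian h) (hint : ∀ u w, Lat u → Lat w → IsGau (h u w)) (hi : Inv G h)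
    (γ δ : grp G hG) (v : Fin n → ℂ) :
    qE h (γ * δ) v = qE h γ (act δ v) * qE h δ v := by
  obtain ⟨g, l, h3, h4⟩ := grp_spec γ
  obtain ⟨g', k, h7, h8⟩ := grp_spec δ
  have h9 : ∀ v, act (γ * δ) v = ((g * g' : G) : (Fin n → ℂ) ≃ₗ[ℂ] (Fin n → ℂ)) v +
      ((g : (Fin n → ℂ) ≃ₗ[ℂ] (Fin n → ℂ)) k + l) := by
    intro v
    rw [act_mul, h8, h4, map_add, add_assoc]
    rfl
  rw [qE_eq hh h9, qE_eq hh h4, qE_eq hh h8, h8]
  have hlk : Lat ((g : (Fin n → ℂ) ≃ₗ[ℂ] (Fin n → ℂ)) k) := hG g g.2 k h7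
  have hz := hint _ l hlk h3
  have hgv : ((g * g' : G) : (Fin n → ℂ) ≃ₗ[ℂ] (Fin n → ℂ)) v =
    (g : (Fin n → ℂ) ≃ₗ[ℂ] (Fin n → ℂ)) ((g' : (Fin n → ℂ) ≃ₗ[ℂ] (Fin n → ℂ)) v) := rfl
  rw [hgv]
  set A : (Fin n → ℂ) ≃ₗ[ℂ] (Fin n → ℂ) := (g : (Fin n → ℂ) ≃ₗ[ℂ] (Fin n → ℂ)) with hA
  set B : (Fin n → ℂ) ≃ₗ[ℂ] (Fin n → ℂ) := (g' : (Fin n → ℂ) ≃ₗ[ℂ] (Fin n → ℂ)) with hB
  have hiA : ∀ u w, h (A u) (A w) = h u w := hi g g.2
  rw [← exp_add]
  have hX : exp (4 * (Real.pi * kap * (h (A (B v + k)) l + h l l / 2))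
      + 4 * (Real.pi * kap * (h (B v) k + h k k / 2))) =
      exp (4 * (Real.pi * kap * (h (A (B v + k)) l + h l l / 2 + (h (B v) k + h k k / 2)))) := by
    congr 1; ring
  rw [hX, ← exp_int_shift hz (h (A (B v + k)) l + h l l / 2 + (h (B v) k + h k k / 2))]
  congr 3
  have e1 : h l (A k) = (starRingEnd ℂ) (h (A k) l) := hh.symm _ _
  have e2 : h (A k) l - (starRingEnd ℂ) (h (A k) l) = 2 * ((h (A k) l).im : ℂ) * I := by
    rw [Complex.sub_conj]; push_cast; ring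
  have e5 : h (A k + l) (A k + l) = h k k + h (A k) l + (starRingEnd ℂ) (h (A k) l)
      + h l l := by
    rw [hh.add_left, h_add_right hh, h_add_right hh, e1, hiA]; ring
  have e6 : h (A (B v)) (A k + l) = h (B v) k + h (A (B v)) l := by
    rw [h_add_right hh, hiA]
  have e7 : h (A (B v + k)) l = h (A (B v)) l + h (A k) l := by rw [map_add, hh.add_left]
  rw [e5, e6, e7]
  linear_combination (1 / 2 : ℂ) * (-e2)

theorem qE_one (hh : IsHermitian h) {γ : grp G hG} (hγ : act γ 0 = 0)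
    (v : Fin n → ℂ) : qE h γ v = 1 := by
  unfold qE
  rw [hγ, h_zero_right hh, h_zero_right hh]
  simp

theorem act_pow {γ : grp G hG} {v : Fin n → ℂ} (hv : act γ v = v) (N : ℕ) : act (γ ^ N) v = v := by
  induction N with
  | zero => rfl
  | succ N ih => rw [pow_succ, act_mul, hv, ih]

theorem qE_pow (hh : IsHermitian h) (hint : ∀ u w, Lat u → Lat w → IsGau (h u w)) (hi : Inv G h)
    {γ : grp G hG} {v : Fin n → ℂ} (hv : act γ v = v) (N : ℕ) :
    qE h (γ ^ N) v = qE h γ v ^ N := by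
  induction N with
  | zero =>
    rw [pow_zero, pow_zero]
    exact qE_one hh rfl v
  | succ N ih => rw [pow_succ, qE_mul hh hint hi, hv, ih, pow_succ]

/-- The linear part of a power. -/
theorem spec_pow {γ : grp G hG} {g : G} {l : Fin n → ℂ}
    (hγ : ∀ v, act γ v = (g : (Fin n → ℂ) ≃ₗ[ℂ] (Fin n → ℂ)) v + l) (N : ℕ) :
    ∃ k : Fin n → ℂ, ∀ v, act (γ ^ N) v = ((g ^ N : G) : (Fin n → ℂ) ≃ₗ[ℂ] (Fin n → ℂ)) v + k := by
  induction N with
  | zero => exact ⟨0, fun v => by rw [add_zero, pow_zero, pow_zero]; rfl⟩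
  | succ N ih =>
    obtain ⟨k, hk⟩ := ih
    refine ⟨((g ^ N : G) : (Fin n → ℂ) ≃ₗ[ℂ] (Fin n → ℂ)) l + k, fun v => ?_⟩
    rw [pow_succ, act_mul, hk, hγ, map_add, add_assoc, pow_succ]
    rfl

variable [Fintype G]

theorem qE_stab (hh : IsHermitian h) (hint : ∀ u w, Lat u → Lat w → IsGau (h u w)) (hi : Inv G h)
    {γ : grp G hG} {v : Fin n → ℂ} (hv : act γ v = v) : qE h γ v ^ Fintype.card G = 1 := by
  obtain ⟨g, l, -, h4⟩ := grp_spec γ
  obtain ⟨k, hk⟩ := spec_pow h4 (Fintype.card G)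
  rw [pow_card_eq_one] at hk
  have h1 := hk v
  rw [act_pow hv] at h1
  have hk0 : k = 0 := by
    have h2 : v = v + k := h1
    exact (add_eq_left.1 h2.symm)
  rw [← qE_pow hh hint hi hv]
  refine qE_one hh ?_ v
  rw [hk, hk0, add_zero]
  rfl

/-- An eigenvalue of an element of `G`. -/
theorem eig_pow {γ : grp G hG} {u : Fin n → ℂ} {ζ : ℂ} (hu : u ≠ 0)
    (h1 : ∀ t : ℂ, act γ (t • u) = (t * ζ) • u) : act γ 0 = 0 ∧ ζ ^ Fintype.card G = 1 := by
  have h0 : act γ 0 = 0 := by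
    have := h1 0
    rwa [zero_smul, zero_mul, zero_smul] at this
  obtain ⟨g, l, -, h4⟩ := grp_spec γ
  have hl : l = 0 := by
    have := h4 0
    rw [h0, map_zero, zero_add] at this
    exact this.symm
  refine ⟨h0, ?_⟩
  have h2 : (g : (Fin n → ℂ) ≃ₗ[ℂ] (Fin n → ℂ)) u = ζ • u := by
    have := h1 1
    rw [one_smul, one_mul, h4, hl, add_zero] at this
    exact this
  have h3 : ∀ N : ℕ, ((g ^ N : G) : (Fin n → ℂ) ≃ₗ[ℂ] (Fin n → ℂ)) u = ζ ^ N • u := by
    intro N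
    induction N with
    | zero => rw [pow_zero, pow_zero, one_smul]; rfl
    | succ N ih =>
      rw [pow_succ]
      have : ((g ^ N * g : G) : (Fin n → ℂ) ≃ₗ[ℂ] (Fin n → ℂ)) u =
        ((g ^ N : G) : (Fin n → ℂ) ≃ₗ[ℂ] (Fin n → ℂ))
          ((g : (Fin n → ℂ) ≃ₗ[ℂ] (Fin n → ℂ)) u) := rfl
      rw [this, h2, map_smul, ih, smul_smul, pow_succ, mul_comm]
  have h5 := h3 (Fintype.card G)
  rw [pow_card_eq_one] at h5
  have h6 : (1 : ℂ) • u = ζ ^ Fintype.card G • u := by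
    rw [one_smul]
    exact h5
  exact (smul_left_injective ℂ hu h6).symm

/-- The line bundle with Chern form `4 |G| κ h` and coefficient `4 |G| b`. -/
noncomputable def qB [Nonempty (Fin n)] (hG : PresLat G) (hh : IsHermitian h)
    (hint : ∀ u w, Lat u → Lat w → IsGau (h u w)) (hi : Inv G h) (b : ℕ) :
    QBundle (grp G hG) where
  e := fun γ v => qE h γ v ^ Fintype.card G
  k := Fintype.card G * (4 * b)
  holo := fun γ => by
    obtain ⟨g, l, -, h4⟩ := grp_spec γ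
    have h5 : qE h γ = fun v => exp (4 * (Real.pi * kap *
        (h ((g : (Fin n → ℂ) ≃ₗ[ℂ] (Fin n → ℂ)) v) l + h l l / 2))) :=
      funext fun v => qE_eq hh h4 v
    rw [h5]
    have h6 : Differentiable ℂ fun v => h ((g : (Fin n → ℂ) ≃ₗ[ℂ] (Fin n → ℂ)) v) l :=
      (herm_differentiable hh l).comp (Pool.Agent.K6.H19.GI.differentiable_equiv _)
    exact (((h6.add_const _).const_mul _).const_mul _).cexp.pow _
  ne_zero := fun γ v => pow_ne_zero _ (exp_ne_zero _)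
  mul := fun γ δ v => by rw [qE_mul hh hint hi, mul_pow]
  stab := fun γ v hv _ => qE_stab hh hint hi hv
  exc := fun γ ζ hγ => by
    have h0 : act γ 0 = 0 := by rw [hγ, smul_zero]
    rw [qE_one hh h0, one_pow]
    have h7 : (Fintype.card G * (4 * b) : ℤ) = ((Fintype.card G * (4 * b) : ℕ) : ℤ) := by
      push_cast; ring
    rw [h7, zpow_natCast]
    obtain ⟨-, h8⟩ := eig_pow (γ := γ) (u := fun _ => 1) (ζ := ζ) (by
      intro h
      have := congrFun h (Classical.arbitrary (Fin n))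
      simp at this) fun t => by rw [hγ, smul_smul, mul_comm]
    rw [pow_mul, h8, one_pow]
  eig := fun γ u ζ hu h1 => by
    obtain ⟨h0, h8⟩ := eig_pow hu h1
    have h7 : (Fintype.card G * (4 * b) : ℤ) = ((Fintype.card G * (4 * b) : ℕ) : ℤ) := by
      push_cast; ring
    have h9 : qE h γ 0 ^ Fintype.card G = 1 := by rw [qE_one hh h0, one_pow]
    change qE h γ 0 ^ Fintype.card G = ζ ^ (Fintype.card G * (4 * b) : ℤ)
    rw [h9, h7, zpow_natCast, pow_mul, h8, one_pow]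

theorem norm_qE (hh : IsHermitian h) (hi : Inv G h) (γ : grp G hG) (v : Fin n → ℂ) :
    ‖qE h γ v‖ ^ 2 = Real.exp (Real.pi * (4 * kap * (h (act γ v) (act γ v)).re) -
      Real.pi * (4 * kap * (h v v).re)) := by
  obtain ⟨g, l, -, h4⟩ := grp_spec γ
  rw [qE_eq hh h4, norm_exp, ← Real.exp_nat_mul, h4]
  congr 1
  set A : (Fin n → ℂ) ≃ₗ[ℂ] (Fin n → ℂ) := (g : (Fin n → ℂ) ≃ₗ[ℂ] (Fin n → ℂ)) with hA
  have hiA : ∀ u w, h (A u) (A w) = h u w := hi g g.2
  have e1 : h (A v + l) (A v + l) = h v v + h (A v) l + (starRingEnd ℂ) (h (A v) l) + h l l := by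
    have e2 : h l (A v) = (starRingEnd ℂ) (h (A v) l) := hh.symm _ _
    rw [hh.add_left, h_add_right hh, h_add_right hh, e2, hiA]
    ring
  have e4 : (4 * (Real.pi * kap * (h (A v) l + h l l / 2)) : ℂ).re =
      4 * (Real.pi * kap * ((h (A v) l).re + (h l l).re / 2)) := by
    have : (4 * (Real.pi * kap * (h (A v) l + h l l / 2)) : ℂ) =
        ((4 * (Real.pi * kap) : ℝ) : ℂ) * (h (A v) l + h l l / 2) := by push_cast; ring
    rw [this, re_ofReal_mul, add_re]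
    have : (h l l / 2).re = (h l l).re / 2 := by
      rw [← Complex.div_ofNat_re]
    rw [this]
    ring
  rw [e1, e4, add_re, add_re, add_re, conj_re]
  push_cast
  ring

theorem re_const_mul (c : ℕ) (z : ℂ) : ((c : ℂ) * (4 * kap * z)).re = c * (4 * kap * z.re) := by
  have : (c : ℂ) * (4 * kap * z) = ((c * (4 * kap) : ℝ) : ℂ) * z := by push_cast; ring
  rw [this, re_ofReal_mul]
  ring

theorem qB_cls [Nonempty (Fin n)] (hG : PresLat G) (hh : IsHermitian h)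
    (hint : ∀ u w, Lat u → Lat w → IsGau (h u w)) (hi : Inv G h) (b : ℕ) :
    IsCls (qB hG hh hint hi b)
      (fun u w => (Fintype.card G : ℂ) * (4 * kap * h u w), (Fintype.card G : ℝ) * (4 * b)) := by
  refine ⟨⟨⟨fun u v w => ?_, fun a v w => ?_, fun v w => ?_⟩, fun _ => 0, differentiable_const _,
    fun γ v => ?_⟩, ?_⟩
  · dsimp only
    rw [hh.add_left]; ring
  · dsimp only
    rw [hh.smul_left]; ring
  · dsimp only
    rw [map_mul, map_mul, map_mul, conj_ofReal, ← hh.symm, Complex.conj_natCast]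
    congr 3
    exact (Complex.conj_natCast 4).symm
  · change ‖qE h γ v ^ Fintype.card G‖ ^ 2 = _
    rw [norm_pow, ← pow_mul, mul_comm, pow_mul, norm_qE hh hi, ← Real.exp_nat_mul]
    congr 1
    beta_reduce
    rw [re_const_mul, re_const_mul]
    simp only [zero_re]
    ring
  · change (Fintype.card G : ℝ) * (4 * b) = ((Fintype.card G * (4 * b) : ℤ) : ℝ)
    push_cast
    rfl

end Pool.Agent.K6.H19.GK
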