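import Pool.Agent.K6.H19.GK.Sa
import Pool.Agent.K6.H19.GI.Abs

/-!
# Classes given by invariant hermitian forms
-/

set_option autoImplicit false
set_option maxHeartbeats 400000

namespace Pool.Agent.K6.H19.GK

open Filter Topology
open Pool.Agent.W594.SYZ2 (IsHermitian)
open Pool.Agent.K6.H19.GI (Lat kum IsGau std frm kap Nf Dat cs_of_psd kap_pos kap_ne thB IsExt
  id_isExt exH exH_herm exH_int semiample_thB section_thB section_thB_zero frm_add frm_smul
  frm_sub frm_zero frm_herm std_dat std_herm std_int std_pos std_nonneg one_le_std re_natMul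
  le_std form_frm N1_ext' kap_im_eis xi)
open Pool.Agent.R895 (BlBundle act N1 N1s IsClass Normalizes)
open Pool.Agent.T6.H34.EK (Pres semi IsSemi QBundle IsCls NSs NS form coef integral semiample effective
  span nefCone effCone IsPullback nefEff IsAutGroup HasDomain)
open Pool.Agent.Y167 (AffGrp cone CData)

variable {n : ℕ} {G : Subgroup ((Fin n → ℂ) ≃ₗ[ℂ] (Fin n → ℂ))} {hG : PresLat G}
  {h : (Fin n → ℂ) → (Fin n → ℂ) → ℂ}

section basic

theorem up_add (x y : NS (grp G hG)) : up (x + y) = up x + up y := rfl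

theorem up_sub (x y : NS (grp G hG)) : up (x - y) = up x - up y := rfl

theorem up_smul (t : ℝ) (x : NS (grp G hG)) : up (t • x) = t • up x := rfl

theorem up_zero : up (0 : NS (grp G hG)) = 0 := rfl

theorem coef_add (x y : NS (grp G hG)) : coef (x + y) = coef x + coef y := rfl

theorem coef_smul (t : ℝ) (x : NS (grp G hG)) : coef (t • x) = t * coef x := rfl

theorem coef_zero : coef (0 : NS (grp G hG)) = 0 := rfl

theorem NS_ext {x y : NS (grp G hG)} (h1 : ∀ u w, frm (up x) u w = frm (up y) u w)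
    (h2 : coef x = coef y) : x = y :=
  up_inj (N1_ext' h1 h2)

/-- The cone which will turn out to be the nef cone. -/
def NfQ (hG : PresLat G) : Set (NS (grp G hG)) := {x | up x ∈ Nf 1 LinearMap.id}

theorem mem_NfQ (x : NS (grp G hG)) : x ∈ NfQ hG ↔ up x ∈ Nf 1 LinearMap.id := Iff.rfl

theorem NfQ_add {x y : NS (grp G hG)} (hx : x ∈ NfQ hG) (hy : y ∈ NfQ hG) : x + y ∈ NfQ hG := by
  rw [mem_NfQ] at hx hy ⊢
  rw [up_add]
  exact Pool.Agent.K6.H19.GI.Nf_add hx hy

theorem NfQ_smul {t : ℝ} (ht : 0 ≤ t) {x : NS (grp G hG)} (hx : x ∈ NfQ hG) :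
    t • x ∈ NfQ hG := by
  rw [mem_NfQ] at hx ⊢
  rw [up_smul]
  exact Pool.Agent.K6.H19.GI.Nf_smul ht hx

theorem NfQ_zero : (0 : NS (grp G hG)) ∈ NfQ hG := by
  rw [mem_NfQ, up_zero]
  exact Pool.Agent.K6.H19.GI.Nf_zero

/-- The group generated by the integral classes. -/
noncomputable abbrev LQ (hG : PresLat G) : AddSubgroup (NS (grp G hG)) :=
  AddSubgroup.closure (integral (grp G hG))

theorem up_LQ {x : NS (grp G hG)} (hx : x ∈ LQ hG) :
    up x ∈ AddSubgroup.closure (Pool.Agent.R895.integral (kum (Fin n) 1) LinearMap.id) := by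
  have h1 : LQ hG ≤ (AddSubgroup.closure
      (Pool.Agent.R895.integral (kum (Fin n) 1) LinearMap.id)).comap
        (upL (G := G) (hG := hG)).toAddMonoidHom := by
    rw [AddSubgroup.closure_le]
    intro x hx
    exact AddSubgroup.subset_closure (up_integral hx)
  exact h1 hx

theorem dat_of_LQ {x : NS (grp G hG)} (hx : x ∈ LQ hG) :
    Dat (frm (up x)) ∧ ∃ k : ℤ, coef x = k :=
  Pool.Agent.K6.H19.GI.eis_of_mem (id_isExt n) (up_LQ hx)

theorem frm_inv (x : NS (grp G hG)) : Inv G (frm (up x)) := fun g hg u w => by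
  unfold frm
  rw [form_up, form_inv x hg]

end basic

section classes

variable [Fintype G]

/-- The constant. -/
noncomputable def c0 (G : Subgroup ((Fin n → ℂ) ≃ₗ[ℂ] (Fin n → ℂ))) [Fintype G] : ℕ :=
  4 * Fintype.card G

theorem c0_pos : 0 < c0 G := Nat.mul_pos (by norm_num) Fintype.card_pos

theorem c0_real : (0 : ℝ) < c0 G := by exact_mod_cast c0_pos

variable [Nonempty (Fin n)]

/-- The class of an invariant integral form. -/
theorem exists_cls (hG : PresLat G) (D : Dat h) (hi : Inv G h) (b : ℕ) :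
    ∃ y : NS (grp G hG), y ∈ integral (grp G hG) ∧ (∀ u w, frm (up y) u w = c0 G * h u w) ∧
      coef y = c0 G * b := by
  have hL := qB_cls hG D.herm D.int hi b
  refine ⟨⟨_, Submodule.subset_span ⟨_, hL⟩⟩, ⟨_, hL⟩, fun u w => ?_, ?_⟩
  · change (Fintype.card G : ℂ) * (4 * kap * h u w) / kap = _
    have := kap_ne
    unfold c0
    push_cast
    field_simp
  · change (Fintype.card G : ℝ) * (4 * b) = _
    unfold c0
    push_cast
    ring

theorem cls_eq {D : Dat h} {hi : Inv G h} {b : ℕ} {y : NS (grp G hG)}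
    (h1 : ∀ u w, frm (up y) u w = c0 G * h u w) (h2 : coef y = c0 G * b) :
    IsCls (qB hG D.herm D.int hi b) (form y, coef y) := by
  have h4 : (form y, coef y) = ((fun u w => (Fintype.card G : ℂ) * (4 * kap * h u w),
      (Fintype.card G : ℝ) * (4 * b)) : ((Fin n → ℂ) → (Fin n → ℂ) → ℂ) × ℝ) := by
    refine Prod.ext (funext fun u => funext fun w => ?_) ?_
    · change Pool.Agent.R895.form (up y) u w = (Fintype.card G : ℂ) * (4 * kap * h u w)
      rw [form_frm, h1]
      unfold c0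
      push_cast
      ring
    · change coef y = (Fintype.card G : ℝ) * (4 * b)
      rw [h2]
      unfold c0
      push_cast
      ring
  rw [h4]
  exact qB_cls hG D.herm D.int hi b

theorem exH_id (D : Dat h) (c : ℕ) : exH id c h = h := by
  funext u w
  exact (id_isExt n).exH (h := h) Function.injective_id c u w

theorem thB_semi {h' : (Fin n → ℂ) → (Fin n → ℂ) → ℂ} (e : h' = h) {b : ℕ}
    {hh' : IsHermitian h'} {hint' : ∀ u w, Lat u → Lat w → IsGau (h' u w)}
    {hh : IsHermitian h} {hint : ∀ u w, Lat u → Lat w → IsGau (h u w)}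
    (hs : (thB 1 hh' hint' b).IsSemiample) : (thB 1 hh hint b).IsSemiample := by
  subst e
  exact hs

theorem thB_sec {h' : (Fin n → ℂ) → (Fin n → ℂ) → ℂ} (e : h' = h) {b : ℕ}
    {hh' : IsHermitian h'} {hint' : ∀ u w, Lat u → Lat w → IsGau (h' u w)}
    {hh : IsHermitian h} {hint : ∀ u w, Lat u → Lat w → IsGau (h u w)}
    (hs : ∃ N : ℕ, 1 ≤ N ∧ ∃ s, ((thB 1 hh' hint' b).pow N).IsSection s ∧ ∃ v, s v ≠ 0) :
    ∃ N : ℕ, 1 ≤ N ∧ ∃ s, ((thB 1 hh hint b).pow N).IsSection s ∧ ∃ v, s v ≠ 0 := by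
  subst e
  exact hs

theorem semiample_cls (hn : n = 3) (D : Dat h) (hi : Inv G h) (b : ℕ)
    (hp : ∀ v, v ≠ 0 → 0 < (h v v).re)
    (hb : ∀ v, Lat v → v ≠ 0 → (b : ℝ) < (h v v).re) {y : NS (grp G hG)}
    (h1 : ∀ u w, frm (up y) u w = c0 G * h u w) (h2 : coef y = c0 G * b) :
    y ∈ semiample (grp G hG) :=
  ⟨_, cls_eq (D := D) (hi := hi) h1 h2, semiample_qB hG D.herm D.int hi
    (thB_semi (exH_id D b) (semiample_thB (ρ := id) (m := 1) hn D b hp hb))⟩

theorem pow_cls {L : QBundle (grp G hG)} {x : NS (grp G hG)} (hL : IsCls L (form x, coef x))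
    (N : ℕ) : ∃ L' : QBundle (grp G hG), L'.toBlBundle = L.toBlBundle.pow N ∧
      IsCls L' (form ((N : ℝ) • x), coef ((N : ℝ) • x)) := by
  refine ⟨{ toBlBundle := L.toBlBundle.pow N
            eig := fun γ u ζ hu h1 => by
              change L.e γ 0 ^ N = ζ ^ ((N : ℤ) * L.k)
              rw [L.eig γ u ζ hu h1, mul_comm, zpow_mul, zpow_natCast] }, rfl, ?_⟩
  obtain ⟨⟨hH, F, hF, hFe⟩, hk⟩ := hL
  dsimp only at hH hFe hk
  have hf : ∀ u w, form ((N : ℝ) • x) u w = N * form x u w := by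
    intro u w
    change (N : ℝ) • form x u w = _
    rw [Complex.real_smul]
    push_cast
    rfl
  refine ⟨⟨⟨fun u v w => ?_, fun a v w => ?_, fun v w => ?_⟩, fun v => N * F v,
    hF.const_mul _, fun γ v => ?_⟩, ?_⟩
  · change form ((N : ℝ) • x) _ _ = form ((N : ℝ) • x) _ _ + form ((N : ℝ) • x) _ _
    rw [hf, hf, hf, hH.add_left]
    ring
  · change form ((N : ℝ) • x) _ _ = a * form ((N : ℝ) • x) _ _
    rw [hf, hf, hH.smul_left]
    ring
  · change form ((N : ℝ) • x) _ _ = (starRingEnd ℂ) (form ((N : ℝ) • x) _ _)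
    rw [hf, hf, map_mul, ← hH.symm, Complex.conj_natCast]
  · change ‖L.e γ v ^ N‖ ^ 2 = Real.exp (Real.pi * (form ((N : ℝ) • x) _ _).re +
      2 * (N * F _ : ℂ).re - (Real.pi * (form ((N : ℝ) • x) _ _).re + 2 * (N * F _ : ℂ).re))
    rw [norm_pow, ← pow_mul, mul_comm N 2, pow_mul, hFe, ← Real.exp_nat_mul]
    congr 1
    have h2 : ∀ z : ℂ, ((N : ℂ) * z).re = N * z.re := by
      intro z
      have : (N : ℂ) = ((N : ℝ) : ℂ) := by push_cast; rfl
      rw [this, Complex.re_ofReal_mul]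
    rw [h2, h2, hf, hf, h2, h2]
    ring
  · change (N : ℝ) * coef x = ((N * L.k : ℤ) : ℝ)
    have h3 : coef x = L.k := hk
    rw [h3]
    push_cast
    rfl

end classes

end Pool.Agent.K6.H19.GK
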