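import Pool.Agent.K6.H19.GK.Cls

/-!
# The data for the fundamental domain
-/

set_option autoImplicit false
set_option maxHeartbeats 400000

namespace Pool.Agent.K6.H19.GK

open Filter Topology
open Pool.Agent.W594.SYZ2 (IsHermitian)
open Pool.Agent.K6.H19.GI (Lat kum IsGau std frm kap Nf Dat cs_of_psd kap_pos kap_ne thB IsExt
  id_isExt exH exH_herm exH_int semiample_thB section_thB section_thB_zero frm_add frm_smul
  frm_sub frm_zero frm_herm std_dat std_herm std_int std_pos std_nonneg one_le_std re_natMul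
  le_std form_frm N1_ext' kap_im_eis xi)
open Pool.Agent.R895 (BlBundle act N1 N1s IsClass Normalizes)
open Pool.Agent.T6.H34.EK (Pres semi IsSemi QBundle IsCls NSs NS form coef integral semiample effective
  span nefCone effCone IsPullback nefEff IsAutGroup HasDomain)
open Pool.Agent.Y167 (AffGrp cone CData)

variable {n : ℕ} {G : Subgroup ((Fin n → ℂ) ≃ₗ[ℂ] (Fin n → ℂ))} {hG : PresLat G}
  {h : (Fin n → ℂ) → (Fin n → ℂ) → ℂ} [Fintype G]

theorem effective_cls [Nonempty (Fin n)] (hn : n = 3) (D : Dat h) (hi : Inv G h)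
    (b : ℕ)
    (hb : (∀ v, v ≠ 0 → 0 < (h v v).re) ∧ (∀ v, Lat v → v ≠ 0 → (b : ℝ) ≤ (h v v).re) ∨
      b = 0 ∧ ∀ v, 0 ≤ (h v v).re) {y : NS (grp G hG)}
    (h1 : ∀ u w, frm (up y) u w = c0 G * h u w) (h2 : coef y = c0 G * b) :
    ∃ N : ℕ, 1 ≤ N ∧ (N : ℝ) • y ∈ effective (grp G hG) := by
  have key : ∃ N : ℕ, 1 ≤ N ∧ ∃ s, ((thB 1 D.herm D.int b).pow N).IsSection s ∧ ∃ v, s v ≠ 0 := by
    rcases hb with ⟨hb1, hb2⟩ | ⟨rfl, hb⟩
    · exact thB_sec (exH_id D b)
        (section_thB (ρ := id) (m := 1) Function.injective_id hn D b hb1 hb2)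
    · exact thB_sec (exH_id D 0) (section_thB_zero (ρ := id) (m := 1) D hb)
  obtain ⟨N, hN, s, hs, h0⟩ := section_qB hG D.herm D.int hi key
  obtain ⟨L', hL', hc⟩ := pow_cls (cls_eq (D := D) (hi := hi) h1 h2) N
  refine ⟨N, hN, L', s, hc, ?_, h0⟩
  rw [hL']
  exact hs

section stdG

/-- The sum of the translates of the form. -/
noncomputable def avg (G : Subgroup ((Fin n → ℂ) ≃ₗ[ℂ] (Fin n → ℂ))) [Fintype G]
    (h : (Fin n → ℂ) → (Fin n → ℂ) → ℂ) (u w : Fin n → ℂ) : ℂ :=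
  ∑ g : G, h ((g : (Fin n → ℂ) ≃ₗ[ℂ] (Fin n → ℂ)) u) ((g : (Fin n → ℂ) ≃ₗ[ℂ] (Fin n → ℂ)) w)

theorem avg_herm (hh : IsHermitian h) : IsHermitian (avg G h) := by
  refine ⟨fun u v w => ?_, fun a v w => ?_, fun v w => ?_⟩
  · unfold avg
    rw [← Finset.sum_add_distrib]
    exact Finset.sum_congr rfl fun g _ => by rw [map_add, hh.add_left]
  · unfold avg
    rw [Finset.mul_sum]
    exact Finset.sum_congr rfl fun g _ => by rw [map_smul, hh.smul_left]
  · unfold avg
    rw [map_sum]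
    exact Finset.sum_congr rfl fun g _ => hh.symm _ _

theorem avg_dat (hG : PresLat G) (D : Dat h) : Dat (avg G h) :=
  ⟨avg_herm D.herm, fun u w hu hw => IsGau.sum _ _ fun g _ =>
    D.int _ _ (hG g g.2 u hu) (hG g g.2 w hw)⟩

theorem avg_inv (h : (Fin n → ℂ) → (Fin n → ℂ) → ℂ) : Inv G (avg G h) := by
  intro g hg u w
  unfold avg
  exact Fintype.sum_equiv (Equiv.mulRight (⟨g, hg⟩ : G)) _ _ fun g' => rfl

theorem avg_re (h : (Fin n → ℂ) → (Fin n → ℂ) → ℂ) (v : Fin n → ℂ) :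
    (avg G h v v).re = ∑ g : G, (h ((g : (Fin n → ℂ) ≃ₗ[ℂ] (Fin n → ℂ)) v)
      ((g : (Fin n → ℂ) ≃ₗ[ℂ] (Fin n → ℂ)) v)).re := by
  unfold avg
  rw [Complex.re_sum]

theorem avg_of_inv (hi : Inv G h) (u w : Fin n → ℂ) :
    avg G h u w = Fintype.card G * h u w := by
  unfold avg
  rw [Finset.sum_congr rfl fun (g : G) _ => hi g g.2 u w, Finset.sum_const, Finset.card_univ,
    nsmul_eq_mul]

theorem std_le_avg (v : Fin n → ℂ) : (std v v).re ≤ (avg G std v v).re := by
  rw [avg_re]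
  refine le_trans (le_of_eq ?_) (Finset.single_le_sum (f := fun g : G =>
    (std ((g : (Fin n → ℂ) ≃ₗ[ℂ] (Fin n → ℂ)) v) ((g : (Fin n → ℂ) ≃ₗ[ℂ] (Fin n → ℂ)) v)).re)
      (fun g _ => std_nonneg _) (Finset.mem_univ (1 : G)))
  rfl

theorem avg_le_std (G : Subgroup ((Fin n → ℂ) ≃ₗ[ℂ] (Fin n → ℂ))) [Fintype G] :
    ∃ C : ℝ, 0 < C ∧ ∀ v, (avg G std v v).re ≤ C * (std v v).re := by
  obtain ⟨C, hC, h1⟩ := le_std (avg_herm (G := G) (std_herm (r := n)))
  refine ⟨C + 1, by positivity, fun v => (h1 v).trans ?_⟩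
  have := std_nonneg v
  linarith

end stdG

theorem re_twice (c : ℕ) (z : ℂ) : ((c : ℂ) * (((2 : ℕ) : ℂ) * z)).re = c * (2 * z.re) := by
  rw [re_natMul, re_natMul]
  push_cast
  ring

theorem exists_y₀ [Nonempty (Fin n)] (hG : PresLat G) :
    ∃ y : NS (grp G hG), y ∈ integral (grp G hG) ∧
      (∀ u w, frm (up y) u w = c0 G * (((2 : ℕ) : ℂ) * avg G std u w)) ∧ coef y = c0 G := by
  obtain ⟨y, h1, h2, h3⟩ := exists_cls hG ((avg_dat hG std_dat).natMul 2) (fun g hg u w => by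
    rw [avg_inv std g hg]) 1
  exact ⟨y, h1, h2, by rw [h3]; simp⟩

/-- The trace of the form of a class. -/
noncomputable def xiQ (hG : PresLat G) : NS (grp G hG) →ₗ[ℝ] ℝ := (xi 1 LinearMap.id) ∘ₗ upL

theorem y_int {y₀ : NS (grp G hG)}
    (hy1 : ∀ u w, frm (up y₀) u w = c0 G * (((2 : ℕ) : ℂ) * avg G std u w)) (hy2 : coef y₀ = c0 G)
    (x : NS (grp G hG)) : ∃ C : ℝ, 0 < C ∧ C • y₀ - x ∈ NfQ hG := by
  obtain ⟨C, hC, h1⟩ := le_std (frm_herm (up x))
  have hre : ∀ v : Fin n → ℂ, (frm (up y₀) v v).re = c0 G * (2 * (avg G std v v).re) := by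
    intro v
    rw [hy1, re_twice]
  have hc1 : (1 : ℝ) ≤ c0 G := by exact_mod_cast c0_pos (G := G)
  have hkey : ∀ v : Fin n → ℂ, 2 * (std v v).re ≤ (frm (up y₀) v v).re := by
    intro v
    rw [hre]
    have h2 := std_le_avg (G := G) v
    have h3 := std_nonneg v
    nlinarith
  have hsub : ∀ v : Fin n → ℂ, (frm (up ((C + |coef x| + 1) • y₀ - x)) v v).re =
      (C + |coef x| + 1) * (frm (up y₀) v v).re - (frm (up x) v v).re := by
    intro v
    rw [up_sub, up_smul, frm_sub, frm_smul, Complex.sub_re, Complex.re_ofReal_mul]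
  have hcoef : coef ((C + |coef x| + 1) • y₀ - x) = (C + |coef x| + 1) * c0 G - coef x := by
    have : coef ((C + |coef x| + 1) • y₀ - x) = (C + |coef x| + 1) * coef y₀ - coef x := rfl
    rw [this, hy2]
  refine ⟨C + |coef x| + 1, by positivity, fun v => ?_, ?_, fun v hv hv0 => ?_⟩
  · rw [hsub]
    have h2 := std_nonneg v
    have h3 := h1 v
    have h4 := mul_nonneg (abs_nonneg (coef x)) h2
    have h5 := hkey v
    have h6 : (C + |coef x| + 1) * (2 * (std v v).re) ≤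
        (C + |coef x| + 1) * (frm (up y₀) v v).re :=
      mul_le_mul_of_nonneg_left h5 (by positivity)
    nlinarith
  · rw [coef_up, hcoef]
    have := le_abs_self (coef x)
    have := abs_nonneg (coef x)
    nlinarith
  · rw [hsub, coef_up, hcoef]
    have h2 := one_le_std hv hv0
    have h3 := h1 v
    have h5 := neg_abs_le (coef x)
    have h6 := abs_nonneg (coef x)
    have h7 := std_le_avg (G := G) v
    rw [hre]
    have h8 : (C + |coef x| + 1) * (c0 G * (std v v).re + c0 G * 1) ≤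
        (C + |coef x| + 1) * (c0 G * (2 * (avg G std v v).re)) := by
      refine mul_le_mul_of_nonneg_left ?_ (by positivity)
      nlinarith
    have h9 : (C + |coef x| + 1) * (1 * (std v v).re) ≤
        (C + |coef x| + 1) * (c0 G * (std v v).re) := by
      refine mul_le_mul_of_nonneg_left ?_ (by positivity)
      exact mul_le_mul_of_nonneg_right hc1 (by linarith)
    have h10 : |coef x| * 1 ≤ |coef x| * (std v v).re := mul_le_mul_of_nonneg_left h2 h6
    nlinarith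

theorem span_integral : Submodule.span ℝ (integral (grp G hG)) = ⊤ := by
  rw [eq_top_iff]
  rintro ⟨x, hx⟩ -
  induction hx using Submodule.span_induction with
  | mem x hx => exact Submodule.subset_span hx
  | zero => exact Submodule.zero_mem _
  | add x y _ _ h1 h2 => exact Submodule.add_mem _ h1 h2
  | smul t x _ h1 => exact Submodule.smul_mem _ t h1

theorem finite_NS : FiniteDimensional ℝ (NS (grp G hG)) := by
  have : FiniteDimensional ℝ (N1 (kum (Fin n) 1) (LinearMap.id : (Fin n → ℂ) →ₗ[ℂ] _)) :=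
    Pool.Agent.K6.H19.GI.finite_N1
  exact Module.Finite.of_injective (upL (G := G) (hG := hG)) up_inj

/-- The data for the fundamental domain. -/
theorem exists_cdata (hn : 0 < n) {y₀ : NS (grp G hG)} (hy0 : y₀ ∈ integral (grp G hG))
    (hy1 : ∀ u w, frm (up y₀) u w = c0 G * (((2 : ℕ) : ℂ) * avg G std u w))
    (hy2 : coef y₀ = c0 G) :
    ∃ Y : Finset (NS (grp G hG)), CData (LQ hG) (NfQ hG) (xiQ hG) y₀ Y := by
  classical
  have : Nonempty (Fin n) := ⟨⟨0, hn⟩⟩
  have hfin : FiniteDimensional ℝ (NS (grp G hG)) := finite_NS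
  obtain ⟨y₁, k0, k1, k2⟩ := Pool.Agent.K6.H19.GI.exists_y₀ (ρ := id)
    (j := (LinearMap.id : (Fin n → ℂ) →ₗ[ℂ] (Fin n → ℂ))) 1 (id_isExt n) Function.injective_id
  obtain ⟨Y₁, D₁⟩ := Pool.Agent.K6.H19.GI.exists_cdata (id_isExt n) hn k0 k1 k2
  have hyNf : y₀ ∈ NfQ hG := by
    have hre : ∀ v : Fin n → ℂ, (frm (up y₀) v v).re = c0 G * (2 * (avg G std v v).re) := by
      intro v
      rw [hy1, re_twice]
    have hc1 := c0_real (G := G)
    refine ⟨fun v => ?_, by rw [coef_up, hy2]; exact hc1.le, fun v hv hv0 => ?_⟩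
    · rw [hre]
      have h1 := std_nonneg v
      have h2 := std_le_avg (G := G) v
      have h3 : 0 ≤ (avg G std v v).re := h1.trans h2
      positivity
    · rw [hre, coef_up, hy2]
      have h1 := one_le_std hv hv0
      have h2 := std_le_avg (G := G) v
      nlinarith
  have hyL : y₀ ∈ LQ hG := AddSubgroup.subset_closure hy0
  obtain ⟨t, ht, htspan, htli⟩ := exists_linearIndependent ℝ (integral (grp G hG))
  have htfin : t.Finite := htli.setFinite
  have hchoose : ∀ x : NS (grp G hG), ∃ n : ℕ, (n : ℝ) • y₀ - x ∈ NfQ hG := by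
    intro x
    obtain ⟨C, hC, h1⟩ := y_int hy1 hy2 x
    refine ⟨⌈C⌉₊, ?_⟩
    have h2 : ((⌈C⌉₊ : ℝ) - C) • y₀ ∈ NfQ hG := NfQ_smul (sub_nonneg.2 (Nat.le_ceil C)) hyNf
    have h3 := NfQ_add h2 h1
    have h4 : ((⌈C⌉₊ : ℝ) - C) • y₀ + (C • y₀ - x) = (⌈C⌉₊ : ℝ) • y₀ - x := by
      module
    rwa [h4] at h3
  choose nf hnf using hchoose
  refine ⟨insert y₀ (htfin.toFinset.image fun x => (nf x : ℝ) • y₀ - x),
    { add := fun x hx y hy => NfQ_add hx hy
      smul := fun t ht x hx => NfQ_smul ht hx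
      xi_int := fun x hx => D₁.xi_int (up x) (up_LQ hx)
      xi_pos := fun x hx hx0 => D₁.xi_pos (up x) hx fun h0 => hx0 (up_inj (h0.trans up_zero.symm))
      fin := fun C => ?_
      y_L := hyL
      y_N := hyNf
      y_int := y_int hy1 hy2
      dom := fun η => ?_
      sep := fun x hx => ?_
      Y_mem := fun y hy => ?_
      Y_span := fun φ hφ => ?_ }⟩
  · refine Set.Finite.subset ((D₁.fin C).preimage up_inj.injOn) fun x hx => ?_
    exact ⟨up_LQ hx.1, hx.2.1, hx.2.2⟩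
  · obtain ⟨g, hg⟩ := LinearMap.exists_leftInverse_of_injective (upL (G := G) (hG := hG))
      (LinearMap.ker_eq_bot.2 up_inj)
    obtain ⟨C, hC⟩ := D₁.dom (η ∘ₗ g)
    refine ⟨C, fun x hx => ?_⟩
    have h1 := hC (up x) hx
    have h2 : (η ∘ₗ g) (up x) = η x := by
      change η (g (upL x)) = η x
      rw [show g (upL x) = x from LinearMap.congr_fun hg x]
    rw [h2] at h1
    exact h1
  · obtain ⟨η, h1, h2⟩ := D₁.sep (up x) fun h0 => hx (up_inj (h0.trans up_zero.symm))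
    exact ⟨η ∘ₗ upL, fun y hy => h1 (up y) (up_LQ hy), h2⟩
  · rcases Finset.mem_insert.1 hy with rfl | h
    · exact ⟨hyL, hyNf⟩
    · obtain ⟨x, hx, rfl⟩ := Finset.mem_image.1 h
      rw [htfin.mem_toFinset] at hx
      refine ⟨AddSubgroup.sub_mem _ ?_ (AddSubgroup.subset_closure (ht hx)), hnf x⟩
      rw [Nat.cast_smul_eq_nsmul]
      exact AddSubgroup.nsmul_mem _ hyL _
  · have h0 : φ y₀ = 0 := hφ _ (Finset.mem_insert_self _ _)
    have h1 : ∀ x ∈ t, φ x = 0 := by
      intro x hx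
      have h2 := hφ ((nf x : ℝ) • y₀ - x)
        (Finset.mem_insert_of_mem (Finset.mem_image_of_mem _ (htfin.mem_toFinset.2 hx)))
      rw [map_sub, map_smul φ (nf x : ℝ), h0, smul_zero, zero_sub, neg_eq_zero] at h2
      exact h2
    have h2 : (⊤ : Submodule ℝ (NS (grp G hG))) ≤ LinearMap.ker φ := by
      rw [← span_integral, ← htspan, Submodule.span_le]
      intro x hx
      exact h1 x hx
    exact LinearMap.ker_eq_top.1 (top_le_iff.1 h2)

end Pool.Agent.K6.H19.GK
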