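import Pool.Agent.K6.H19.GK.Core

/-!
# The nef cone and the effective cone
-/

set_option autoImplicit false
set_option maxHeartbeats 400000

namespace Pool.Agent.K6.H19.GK

open Filter Topology
open Pool.Agent.W594.SYZ2 (IsHermitian)
open Pool.Agent.K6.H19.GI (Lat kum IsGau std frm kap Nf Dat cs_of_psd kap_pos kap_ne thB IsExt
  id_isExt lat exists_basis dat_of_isInt re_kap_div differentiable_equiv cut_int exists_vectors
  exists_ker exists_lower isClosed_Nf frm_add frm_smul frm_sub frm_zero frm_herm std_dat std_herm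
  std_int std_pos std_nonneg one_le_std re_natMul le_std form_frm N1_ext' kap_im_eis xi)
open Pool.Agent.R895 (BlBundle act N1 N1s IsClass Normalizes)
open Pool.Agent.T6.H34.EK (Pres semi IsSemi QBundle IsCls NSs NS form coef integral semiample effective
  span nefCone effCone IsPullback nefEff IsAutGroup HasDomain)
open Pool.Agent.Y167 (AffGrp cone CData Pol Cp cone_ind cone_add cone_smul cone_sum cone_le
  mem_cone_self mem_cone_of_sum zero_mem_cone cone_cut cone_image cone_mono)

section top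

variable {V : Type*} [NormedAddCommGroup V] [NormedSpace ℂ V] {Γ : AffGrp V}

instance : IsTopologicalAddGroup (NS Γ) :=
  inferInstanceAs (IsTopologicalAddGroup (NSs Γ))

instance : ContinuousSMul ℝ (NS Γ) :=
  inferInstanceAs (ContinuousSMul ℝ (NSs Γ))

theorem span_add {A : Set (NS Γ)} {x y : NS Γ} (hx : x ∈ span A) (hy : y ∈ span A) :
    x + y ∈ span A := by
  classical
  obtain ⟨S, hS, hx⟩ := hx
  obtain ⟨T, hT, hy⟩ := hy
  refine ⟨S ∪ T, ?_, cone_add (cone_mono Finset.subset_union_left hx)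
    (cone_mono Finset.subset_union_right hy)⟩
  rw [Finset.coe_union]
  exact Set.union_subset hS hT

theorem span_smul {A : Set (NS Γ)} {x : NS Γ} (hx : x ∈ span A) {t : ℝ} (ht : 0 ≤ t) :
    t • x ∈ span A := by
  obtain ⟨S, hS, hx⟩ := hx
  exact ⟨S, hS, cone_smul hx ht⟩

theorem span_zero {A : Set (NS Γ)} : (0 : NS Γ) ∈ span A :=
  ⟨∅, by simp, zero_mem_cone _⟩

theorem span_self {A : Set (NS Γ)} {x : NS Γ} (hx : x ∈ A) : x ∈ span A :=
  ⟨{x}, by simpa using hx, mem_cone_self (Finset.mem_singleton_self x)⟩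

theorem nef_add {x y : NS Γ} (hx : x ∈ nefCone Γ) (hy : y ∈ nefCone Γ) :
    x + y ∈ nefCone Γ :=
  map_mem_closure₂ continuous_add hx hy fun _ ha _ hb => span_add ha hb

theorem nef_smul {x : NS Γ} (hx : x ∈ nefCone Γ) {t : ℝ} (ht : 0 ≤ t) :
    t • x ∈ nefCone Γ :=
  map_mem_closure (continuous_const_smul t) hx fun _ ha => span_smul ha ht

theorem nef_zero : (0 : NS Γ) ∈ nefCone Γ := subset_closure span_zero

theorem cone_nef {S : Finset (NS Γ)} (hS : ∀ a ∈ S, a ∈ nefCone Γ) {x : NS Γ}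
    (hx : x ∈ cone S) : x ∈ nefCone Γ :=
  cone_ind (p := fun x => x ∈ nefCone Γ) nef_zero (fun _ _ h1 h2 => nef_add h1 h2)
    (fun _ _ ht h => nef_smul h ht) hS hx

theorem cone_span {S : Finset (NS Γ)} {A : Set (NS Γ)} (hS : ∀ a ∈ S, a ∈ span A) {x : NS Γ}
    (hx : x ∈ cone S) : x ∈ span A :=
  cone_ind (p := fun x => x ∈ span A) span_zero (fun _ _ h1 h2 => span_add h1 h2)
    (fun _ _ ht h => span_smul h ht) hS hx

/-- A limit along a ray. -/
theorem mem_closed {A : Set (NS Γ)} (hA : IsClosed A) {x y : NS Γ}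
    (h : ∀ n : ℕ, x + (1 / ((n : ℝ) + 1)) • y ∈ A) : x ∈ A := by
  have h1 : Tendsto (fun n : ℕ => x + (1 / ((n : ℝ) + 1)) • y) atTop (𝓝 (x + (0 : ℝ) • y)) :=
    (tendsto_one_div_add_atTop_nhds_zero_nat.smul_const y).const_add x
  rw [zero_smul, add_zero] at h1
  exact hA.mem_of_tendsto h1 (Eventually.of_forall h)

end top

variable {n : ℕ} {G : Subgroup ((Fin n → ℂ) ≃ₗ[ℂ] (Fin n → ℂ))} {hG : PresLat G}
  {h : (Fin n → ℂ) → (Fin n → ℂ) → ℂ}

theorem continuous_up : Continuous (up (G := G) (hG := hG)) := by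
  have h1 : Continuous fun x : NS (grp G hG) => x.1 := continuous_subtype_val
  exact Continuous.subtype_mk h1 _

theorem isClosed_NfQ : IsClosed (NfQ hG) :=
  (isClosed_Nf (m := 1) (j := LinearMap.id)).preimage continuous_up

theorem nefCone_le [Nonempty (Fin n)] : nefCone (grp G hG) ⊆ NfQ hG := by
  refine closure_minimal ?_ isClosed_NfQ
  rintro x ⟨S, hS, hx⟩
  exact cone_ind (p := fun x => x ∈ NfQ hG) NfQ_zero (fun _ _ h1 h2 => NfQ_add h1 h2)
    (fun _ _ ht h => NfQ_smul ht h) (fun a ha => (mem_NfQ a).2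
      (Pool.Agent.K6.H19.GI.semiample_Nf (id_isExt n) Function.injective_id (up_semiample (hS ha)))) hx

theorem coef_nat {a : NS (grp G hG)} (ha : a ∈ NfQ hG) {n : ℤ} (hn : coef a = n) :
    ∃ b : ℕ, coef a = b := by
  have h1 : 0 ≤ coef a := ha.2.1
  rw [hn] at h1
  have h2 : 0 ≤ n := by exact_mod_cast h1
  obtain ⟨b, rfl⟩ := Int.eq_ofNat_of_zero_le h2
  exact ⟨b, by rw [hn]; simp⟩

variable [Fintype G] [Nonempty (Fin n)]

theorem inv_comb {h h' : (Fin n → ℂ) → (Fin n → ℂ) → ℂ} (hi : Inv G h) (hi' : Inv G h') (a b : ℂ) :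
    Inv G fun u w => a * h u w + b * h' u w := fun g hg u w => by
  dsimp only
  rw [hi g hg, hi' g hg]

/-- An integral class in the cone `NfQ` is nef. -/
theorem nef_of_int (hn : n = 3) {a : NS (grp G hG)} (ha : a ∈ LQ hG) (haN : a ∈ NfQ hG) :
    a ∈ nefCone (grp G hG) := by
  obtain ⟨y₀, -, hy1, hy2⟩ := exists_y₀ hG
  obtain ⟨D, k, hk⟩ := dat_of_LQ ha
  obtain ⟨b, hb⟩ := coef_nat haN hk
  refine mem_closed (y := y₀) isClosed_closure fun k => subset_closure ?_
  set K : ℕ := k + 1 with hK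
  have hKr : ((K : ℕ) : ℝ) = (k : ℝ) + 1 := by rw [hK]; push_cast; rfl
  have hK0 : (0 : ℝ) < K := by rw [hKr]; positivity
  have hcc := c0_real (G := G)
  have hc1 : (1 : ℝ) ≤ c0 G := by exact_mod_cast c0_pos (G := G)
  have D' : Dat fun u w => (K : ℂ) * frm (up a) u w + ((2 * c0 G : ℕ) : ℂ) * avg G std u w :=
    (D.natMul K).add ((avg_dat hG std_dat).natMul (2 * c0 G))
  have hi' : Inv G fun u w => (K : ℂ) * frm (up a) u w + ((2 * c0 G : ℕ) : ℂ) * avg G std u w :=
    inv_comb (frm_inv a) (avg_inv std) _ _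
  have hre : ∀ v, ((K : ℂ) * frm (up a) v v + ((2 * c0 G : ℕ) : ℂ) * avg G std v v).re =
      K * (frm (up a) v v).re + 2 * c0 G * (avg G std v v).re := by
    intro v
    rw [Complex.add_re, re_natMul, re_natMul]
    push_cast
    ring
  have hsa : (c0 G : ℝ) • ((K : ℝ) • a + y₀) ∈ semiample (grp G hG) := by
    refine semiample_cls hn D' hi' (K * b + c0 G) (fun v hv => ?_) (fun v hv hv0 => ?_)
      (fun u w => ?_) ?_
    · rw [hre]
      have h1 := haN.1 v
      have h2 := std_pos hv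
      have h3 := std_le_avg (G := G) v
      have h4 : 0 < (avg G std v v).re := lt_of_lt_of_le h2 h3
      positivity
    · rw [hre]
      have h1 := haN.2.2 v hv hv0
      rw [coef_up, hb] at h1
      have h2 := one_le_std hv hv0
      have h3 := std_le_avg (G := G) v
      have h4 : (K : ℝ) * b ≤ K * (frm (up a) v v).re := mul_le_mul_of_nonneg_left h1 hK0.le
      have h5 : (c0 G : ℝ) * 1 ≤ c0 G * (avg G std v v).re :=
        mul_le_mul_of_nonneg_left (h2.trans h3) hcc.le
      push_cast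
      nlinarith
    · rw [up_smul, up_add, up_smul, frm_smul, frm_add, frm_smul, hy1]
      push_cast
      ring
    · rw [coef_smul, coef_add, coef_smul, hb, hy2]
      push_cast
      ring
  have h1 := span_smul (span_self hsa) (t := 1 / (c0 G * K)) (by positivity)
  have h2 : (1 / (c0 G * (K : ℝ))) • (c0 G : ℝ) • ((K : ℝ) • a + y₀) =
      a + (1 / ((k : ℝ) + 1)) • y₀ := by
    rw [← hKr, smul_smul, smul_add, smul_smul]
    have e1 : 1 / (c0 G * (K : ℝ)) * c0 G * K = 1 := by field_simp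
    have e2 : 1 / (c0 G * (K : ℝ)) * c0 G = 1 / K := by field_simp
    rw [e1, e2, one_smul]
  rwa [h2] at h1

/-- An integral class in the cone `NfQ` is effective. -/
theorem eff_of_int (hn : n = 3) {a : NS (grp G hG)} (ha : a ∈ LQ hG)
    (haN : a ∈ NfQ hG) : a ∈ effCone (grp G hG) := by
  obtain ⟨D, k, hk⟩ := dat_of_LQ ha
  obtain ⟨b, hb⟩ := coef_nat haN hk
  have hcc := c0_real (G := G)
  have key : (∀ v, v ≠ 0 → 0 < (frm (up a) v v).re) ∧
      (∀ v, Lat v → v ≠ 0 → (b : ℝ) ≤ (frm (up a) v v).re) ∨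
        b = 0 ∧ ∀ v, 0 ≤ (frm (up a) v v).re := by
    by_cases hpd : ∀ v, v ≠ 0 → 0 < (frm (up a) v v).re
    · exact Or.inl ⟨hpd, fun v hv hv0 => by rw [← hb]; exact haN.2.2 v hv hv0⟩
    · push Not at hpd
      obtain ⟨v, hv, hv0⟩ := hpd
      obtain ⟨w, hw, hw0, hww⟩ := exists_ker D haN.1 hv (le_antisymm hv0 (haN.1 v))
      have h1 := haN.2.2 w hw hw0
      rw [coef_up, hb, hww] at h1
      refine Or.inr ⟨?_, haN.1⟩
      have h2 : b ≤ 0 := by exact_mod_cast h1
      omega
  obtain ⟨N, hN, heff⟩ := effective_cls (G := G) (hG := hG) hn D (frm_inv a) b key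
    (y := (c0 G : ℝ) • a)
    (fun u w => by rw [up_smul, frm_smul]; push_cast; ring) (by rw [coef_smul, hb])
  have hNr : (0 : ℝ) < N := by exact_mod_cast hN
  have h1 := span_smul (span_self heff) (t := 1 / (c0 G * N)) (by positivity)
  have h2 : (1 / (c0 G * (N : ℝ))) • (N : ℝ) • (c0 G : ℝ) • a = a := by
    rw [smul_smul, smul_smul]
    have e1 : 1 / (c0 G * (N : ℝ)) * N * c0 G = 1 := by field_simp
    rw [e1, one_smul]
  rwa [h2] at h1

/-- The element of a cone of integral classes of `NfQ`. -/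
theorem Cp_le (hn : n = 3) {x : NS (grp G hG)}
    (hx : x ∈ Cp (LQ hG) (NfQ hG)) : x ∈ nefCone (grp G hG) ∩ effCone (grp G hG) := by
  obtain ⟨S, hS, hx⟩ := hx
  exact ⟨cone_nef (fun a ha => nef_of_int hn (hS a ha).1 (hS a ha).2) hx,
    cone_span (fun a ha => eff_of_int hn (hS a ha).1 (hS a ha).2) hx⟩

/-- A class whose pullback is spanned by integral classes of `Nf`. -/
theorem Cp_of_up {x : NS (grp G hG)}
    (hx : up x ∈ Cp (AddSubgroup.closure (Pool.Agent.R895.integral (kum (Fin n) 1)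
      (LinearMap.id : (Fin n → ℂ) →ₗ[ℂ] (Fin n → ℂ)))) (Nf 1 LinearMap.id)) :
    x ∈ Cp (LQ hG) (NfQ hG) := by
  classical
  obtain ⟨S, hS, c, hc, hxc⟩ := hx
  have hD : ∀ a ∈ S, Dat (frm a) ∧ ∃ b : ℕ, Pool.Agent.R895.coef a = b := fun a ha => by
    obtain ⟨D, k, hk⟩ := Pool.Agent.K6.H19.GI.eis_of_mem (id_isExt n) (hS a ha).1
    exact ⟨D, Pool.Agent.K6.H19.GI.coef_nat (hS a ha).2 hk⟩
  choose! b hb using fun a ha => (hD a ha).2
  choose! y hy1 hy2 hy3 using fun a (ha : a ∈ S) =>
    exists_cls hG (avg_dat hG (hD a ha).1) (avg_inv (G := G) (frm a)) (Fintype.card G * b a)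
  have hcc := c0_real (G := G)
  have hcG : (0 : ℝ) < Fintype.card G := by exact_mod_cast Fintype.card_pos
  have hcc' : (c0 G : ℂ) ≠ 0 := by exact_mod_cast (c0_pos (G := G)).ne'
  have hcG' : (Fintype.card G : ℂ) ≠ 0 := by exact_mod_cast Fintype.card_ne_zero (α := G)
  refine ⟨S.image y, fun z hz => ?_, ?_⟩
  · obtain ⟨a, ha, rfl⟩ := Finset.mem_image.1 hz
    have haN := (hS a ha).2
    refine ⟨AddSubgroup.subset_closure (hy1 a ha), fun v => ?_, ?_, fun v hv hv0 => ?_⟩
    · rw [hy2 a ha, re_natMul, avg_re]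
      exact mul_nonneg hcc.le (Finset.sum_nonneg fun g _ => haN.1 _)
    · rw [coef_up, hy3 a ha]
      positivity
    · rw [hy2 a ha, re_natMul, avg_re, coef_up, hy3 a ha]
      refine mul_le_mul_of_nonneg_left ?_ hcc.le
      push_cast
      rw [← hb a ha, ← nsmul_eq_mul, ← Finset.card_univ, ← Finset.sum_const]
      exact Finset.sum_le_sum fun g _ => haN.2.2 _ (hG g g.2 v hv) (by simpa using hv0)
  · have h1 : x = ∑ a ∈ S, (c a / (c0 G * Fintype.card G)) • y a := by
      have hf : ∀ (s : Finset (N1 (kum (Fin n) 1)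
          (LinearMap.id : (Fin n → ℂ) →ₗ[ℂ] (Fin n → ℂ)))) (v w : Fin n → ℂ), s ⊆ S →
          frm (up (∑ a ∈ s, (c a / (c0 G * Fintype.card G)) • y a)) v w =
            (Fintype.card G : ℂ)⁻¹ * avg G (frm (∑ a ∈ s, c a • a)) v w := by
        intro s v w
        induction s using Finset.induction_on with
        | empty =>
          intro _
          rw [Finset.sum_empty, Finset.sum_empty, up_zero, frm_zero]
          unfold avg
          simp [frm_zero]
        | insert a s ha ih =>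
          intro hs
          have e1 : avg G (frm (∑ a ∈ insert a s, c a • a)) v w =
              c a * avg G (frm a) v w + avg G (frm (∑ a ∈ s, c a • a)) v w := by
            unfold avg
            rw [Finset.sum_insert ha, Finset.mul_sum, ← Finset.sum_add_distrib]
            exact Finset.sum_congr rfl fun g _ => by rw [frm_add, frm_smul]
          rw [Finset.sum_insert ha, up_add, frm_add,
            ih fun a ha => hs (Finset.mem_insert_of_mem ha), up_smul, frm_smul,
            hy2 a (hs (Finset.mem_insert_self _ _)), e1]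
          push_cast
          field_simp
      have hcs : ∀ s : Finset (N1 (kum (Fin n) 1)
          (LinearMap.id : (Fin n → ℂ) →ₗ[ℂ] (Fin n → ℂ))), s ⊆ S →
          coef (∑ a ∈ s, (c a / (c0 G * Fintype.card G)) • y a) =
            Pool.Agent.R895.coef (∑ a ∈ s, c a • a) := by
        intro s
        induction s using Finset.induction_on with
        | empty =>
          intro _
          rw [Finset.sum_empty, Finset.sum_empty, coef_zero, Pool.Agent.K6.H19.GI.coef_zero]
        | insert a s ha ih =>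
          intro hs
          have ha' := hs (Finset.mem_insert_self a s)
          rw [Finset.sum_insert ha, Finset.sum_insert ha, coef_add,
            ih fun a ha => hs (Finset.mem_insert_of_mem ha),
            coef_smul, hy3 a ha', Pool.Agent.K6.H19.GI.coef_add, Pool.Agent.K6.H19.GI.coef_smul, hb a ha']
          push_cast
          field_simp
      refine NS_ext (fun v w => ?_) ?_
      · rw [hf S v w (Finset.Subset.refl _), ← hxc, avg_of_inv (frm_inv x)]
        field_simp
      · rw [hcs S (Finset.Subset.refl _), ← hxc]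
        rfl
    rw [h1]
    exact mem_cone_of_sum S _ _ (fun a ha => Finset.mem_image_of_mem _ ha)
      fun a _ => div_nonneg (hc a) (by positivity)

theorem up_span {A : Set (NS (grp G hG))} {B : Set (N1 (kum (Fin n) 1)
    (LinearMap.id : (Fin n → ℂ) →ₗ[ℂ] (Fin n → ℂ)))} (hAB : ∀ a ∈ A, up a ∈ B)
    {x : NS (grp G hG)} (hx : x ∈ span A) : up x ∈ Pool.Agent.R895.span B := by
  obtain ⟨S, hS, hx⟩ := hx
  refine cone_ind (p := fun x => up x ∈ Pool.Agent.R895.span B) ?_ ?_ ?_ ?_ hx
  · rw [up_zero]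
    exact Pool.Agent.K6.H19.GI.span_zero
  · intro x y h1 h2
    rw [up_add]
    exact Pool.Agent.K6.H19.GI.span_add h1 h2
  · intro t x ht h1
    rw [up_smul]
    exact Pool.Agent.K6.H19.GI.span_smul h1 ht
  · intro a ha
    exact Pool.Agent.K6.H19.GI.span_self (hAB a (hS ha))

theorem up_nef {x : NS (grp G hG)} (hx : x ∈ nefCone (grp G hG)) :
    up x ∈ Pool.Agent.R895.nefCone (kum (Fin n) 1)
      (LinearMap.id : (Fin n → ℂ) →ₗ[ℂ] (Fin n → ℂ)) := by
  refine map_mem_closure continuous_up hx fun y hy => ?_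
  exact up_span (fun a ha => up_semiample ha) hy

theorem up_eff {x : NS (grp G hG)} (hx : x ∈ effCone (grp G hG)) :
    up x ∈ Pool.Agent.R895.effCone (kum (Fin n) 1)
      (LinearMap.id : (Fin n → ℂ) →ₗ[ℂ] (Fin n → ℂ)) := by
  exact up_span (fun a ha => up_effective ha) hx

theorem mem_Cp_iff (hn : n = 3) (x : NS (grp G hG)) :
    x ∈ Cp (LQ hG) (NfQ hG) ↔ x ∈ nefCone (grp G hG) ∩ effCone (grp G hG) :=
  ⟨fun h => Cp_le hn h, fun h => Cp_of_up
    ((Pool.Agent.K6.H19.GI.mem_Cp_iff (id_isExt n) Function.injective_id hn (up x)).2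
      ⟨up_nef h.1, up_eff h.2⟩)⟩

/-- The nef cone. -/
theorem nefCone_eq (hn : n = 3) : nefCone (grp G hG) = NfQ hG := by
  refine Set.Subset.antisymm nefCone_le fun x hx => ?_
  obtain ⟨y₀, hy0, hy1, hy2⟩ := exists_y₀ hG
  have hcc := c0_real (G := G)
  have hre : ∀ v : Fin n → ℂ, (frm (up y₀) v v).re = c0 G * (2 * (avg G std v v).re) := by
    intro v
    rw [hy1, re_twice]
  have hyN : y₀ ∈ NfQ hG := by
    refine ⟨fun v => ?_, by rw [coef_up, hy2]; exact hcc.le, fun v hv hv0 => ?_⟩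
    · rw [hre]
      have h1 := std_nonneg v
      have h2 := std_le_avg (G := G) v
      have h3 : 0 ≤ (avg G std v v).re := h1.trans h2
      positivity
    · rw [hre, coef_up, hy2]
      have h1 := one_le_std hv hv0
      have h2 := std_le_avg (G := G) v
      nlinarith
  refine mem_closed (y := y₀) isClosed_closure fun k => ?_
  have hk : (0 : ℝ) < 1 / ((k : ℝ) + 1) := by positivity
  have h1 : up (x + (1 / ((k : ℝ) + 1)) • y₀) ∈ Cp (AddSubgroup.closure
      (Pool.Agent.R895.integral (kum (Fin n) 1)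
        (LinearMap.id : (Fin n → ℂ) →ₗ[ℂ] (Fin n → ℂ)))) (Nf 1 LinearMap.id) := by
    have h0 : x + (1 / ((k : ℝ) + 1)) • y₀ ∈ NfQ hG := NfQ_add hx (NfQ_smul hk.le hyN)
    rw [mem_NfQ] at h0
    refine Pool.Agent.K6.H19.GI.Cp_of_pd (id_isExt n) Function.injective_id
      h0 ⟨1 / ((k : ℝ) + 1) * (c0 G * 2), by positivity, fun v => ?_⟩
    rw [up_add, up_smul, frm_add, Complex.add_re, frm_smul, Complex.re_ofReal_mul, hre]
    have h2 := hx.1 v
    have h3 := std_le_avg (G := G) v
    have h4 : 1 / ((k : ℝ) + 1) * (c0 G * 2) * (std v v).re ≤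
        1 / ((k : ℝ) + 1) * (c0 G * 2) * (avg G std v v).re :=
      mul_le_mul_of_nonneg_left h3 (by positivity)
    linarith
  obtain ⟨S, hS, h2⟩ := Cp_of_up h1
  exact cone_nef (fun a ha => nef_of_int hn (hS a ha).1 (hS a ha).2) h2

/-- The multiple `c₀ a` of an element of the group spanned by integral classes is integral if the
coefficient is nonnegative. -/
theorem c0_int {a : NS (grp G hG)} (ha : a ∈ LQ hG) (haN : a ∈ NfQ hG) :
    (c0 G : ℝ) • a ∈ integral (grp G hG) := by
  obtain ⟨D, k, hk⟩ := dat_of_LQ ha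
  obtain ⟨b, hb⟩ := coef_nat haN hk
  obtain ⟨y, h1, h2, h3⟩ := exists_cls hG D (frm_inv a) b
  have h4 : (c0 G : ℝ) • a = y := by
    refine NS_ext (fun u w => ?_) ?_
    · rw [up_smul, frm_smul, h2]
      push_cast
      ring
    · rw [coef_smul, h3, hb]
  rw [h4]
  exact h1

end Pool.Agent.K6.H19.GK
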