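import Pool.Agent.K6.H19.GK.Bun

/-!
# Norms of sections
-/

set_option autoImplicit false

namespace Pool.Agent.K6.H19.GK

open Filter Topology Asymptotics Complex
open Pool.Agent.W594.SYZ2 (IsHermitian)
open Pool.Agent.W594.SYZ2.TQ (h_add_right h_smul_right h_zero_left h_zero_right h_neg_left
  h_sub_left h_re_symm)
open Pool.Agent.K6.H19.GI (Lat kum IsGau std frm kap Nf Dat cs_of_psd kap_pos kap_ne
  exp_int_shift thE thB kum_spec thE_eq herm_differentiable prod_differentiable)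
open Pool.Agent.R895 (BlBundle act N1 N1s IsClass Normalizes)
open Pool.Agent.T6.H34.EK (Pres semi IsSemi QBundle IsCls NSs NS form coef integral semiample effective
  span nefCone effCone IsPullback nefEff IsAutGroup HasDomain)
open Pool.Agent.Y167 (AffGrp cone)

section analysis

theorem exists_lim {f : ℂ → ℂ} (hf : Differentiable ℂ f) {m : ℕ}
    (hO : f =O[𝓝 0] fun t => ‖t‖ ^ m) :
    ∃ c, Tendsto (fun t => f t / t ^ m) (𝓝[≠] 0) (𝓝 c) := by
  have han : AnalyticAt ℂ f 0 := hf.analyticAt 0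
  have key : (m : ℕ∞) ≤ analyticOrderAt f 0 := by
    by_contra hlt
    rw [not_le] at hlt
    obtain ⟨k, hk⟩ := ENat.ne_top_iff_exists.1 (ne_top_of_lt hlt)
    obtain ⟨g, hg, hg0, hfg⟩ := han.analyticOrderAt_eq_natCast.1 hk.symm
    rw [← hk] at hlt
    have hkm : k < m := by exact_mod_cast hlt
    apply hg0
    have h1 : Tendsto g (𝓝[≠] 0) (𝓝 (g 0)) := hg.continuousAt.tendsto.mono_left nhdsWithin_le_nhds
    refine tendsto_nhds_unique h1 ?_
    have h2 : g =ᶠ[𝓝[≠] 0] fun t => f t / t ^ k := by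
      filter_upwards [nhdsWithin_le_nhds hfg, self_mem_nhdsWithin] with t ht ht0
      have ht0' : t ≠ 0 := ht0
      rw [ht, sub_zero, smul_eq_mul]
      field_simp
    refine Tendsto.congr' h2.symm ?_
    have h3 : (fun t => f t / t ^ k) =O[𝓝[≠] 0] fun t : ℂ => ‖t‖ ^ (m - k) := by
      obtain ⟨C, hC⟩ := (hO.mono (nhdsWithin_le_nhds (s := {0}ᶜ))).bound
      refine IsBigO.of_bound C ?_
      filter_upwards [hC, self_mem_nhdsWithin] with t ht ht0
      have ht0' : t ≠ 0 := ht0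
      have ht1 : 0 < ‖t‖ := norm_pos_iff.2 ht0'
      rw [norm_div, norm_pow, norm_pow, norm_norm, div_le_iff₀ (by positivity), mul_assoc,
        ← pow_add, Nat.sub_add_cancel hkm.le]
      simpa using ht
    refine h3.trans_tendsto ?_
    have h4 : Tendsto (fun t : ℂ => ‖t‖ ^ (m - k)) (𝓝 0) (𝓝 (‖(0 : ℂ)‖ ^ (m - k))) :=
      (continuous_norm.pow _).tendsto 0
    rw [norm_zero, zero_pow (by omega)] at h4
    exact h4.mono_left nhdsWithin_le_nhds
  obtain ⟨g, hg, hfg⟩ := (natCast_le_analyticOrderAt han).1 key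
  refine ⟨g 0, ?_⟩
  have h1 : Tendsto g (𝓝[≠] 0) (𝓝 (g 0)) := hg.continuousAt.tendsto.mono_left nhdsWithin_le_nhds
  refine h1.congr' ?_
  filter_upwards [nhdsWithin_le_nhds hfg, self_mem_nhdsWithin] with t ht ht0
  have ht0' : t ≠ 0 := ht0
  rw [ht, sub_zero, smul_eq_mul]
  field_simp

theorem isBigO_line {V : Type*} [NormedAddCommGroup V] [NormedSpace ℂ V] {s : V → ℂ} {m : ℕ}
    (hO : s =O[𝓝 0] fun v => ‖v‖ ^ m) (u : V) : (fun t : ℂ => s (t • u)) =O[𝓝 0]
      fun t => ‖t‖ ^ m := by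
  have h1 : Tendsto (fun t : ℂ => t • u) (𝓝 0) (𝓝 0) := by
    have : Continuous fun t : ℂ => t • u := by fun_prop
    have h := this.tendsto 0
    rwa [zero_smul] at h
  refine (hO.comp_tendsto h1).trans ?_
  refine IsBigO.of_bound (‖u‖ ^ m) (Eventually.of_forall fun t => ?_)
  simp only [Function.comp_apply, norm_smul, mul_pow, norm_mul, norm_pow, norm_norm]
  rw [mul_comm]

variable {ι : Type*} [Fintype ι]

/-- A product of entire functions which are not zero is not zero. -/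
theorem prod_ne {κ : Type*} (T : Finset κ) (f : κ → (ι → ℂ) → ℂ)
    (hf : ∀ i, Differentiable ℂ (f i)) (h0 : ∀ i ∈ T, ∃ v, f i v ≠ 0) :
    ∃ v, ∏ i ∈ T, f i v ≠ 0 := by
  classical
  induction T using Finset.induction_on with
  | empty => exact ⟨0, by simp⟩
  | insert i s hi ih =>
    obtain ⟨v, hv⟩ := ih fun j hj => h0 j (Finset.mem_insert_of_mem hj)
    obtain ⟨w, hw⟩ := h0 i (Finset.mem_insert_self _ _)
    -- the line through `v` and `w`
    have hline : Differentiable ℂ fun t : ℂ => v + t • (w - v) := by fun_prop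
    have h1 : AnalyticOnNhd ℂ (fun t : ℂ => f i (v + t • (w - v))) Set.univ :=
      fun x _ => ((hf i).comp hline : Differentiable ℂ _).analyticAt x
    have hs : Differentiable ℂ fun v => ∏ j ∈ s, f j v := by
      exact prod_differentiable s f hf
    have h2 : AnalyticOnNhd ℂ (fun t : ℂ => ∏ j ∈ s, f j (v + t • (w - v))) Set.univ :=
      fun x _ => (hs.comp hline : Differentiable ℂ _).analyticAt x
    by_contra hcon
    push Not at hcon
    rcases h1.eq_zero_or_eq_zero_of_mul_eq_zero h2 (fun t _ => by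
      have := hcon (v + t • (w - v))
      rwa [Finset.prod_insert hi] at this) isPreconnected_univ with h | h
    · apply hw
      have := h 1 (Set.mem_univ _)
      simpa using this
    · apply hv
      have := h 0 (Set.mem_univ _)
      simpa using this

end analysis

variable {n : ℕ} {G : Subgroup ((Fin n → ℂ) ≃ₗ[ℂ] (Fin n → ℂ))} {hG : PresLat G}
  {h : (Fin n → ℂ) → (Fin n → ℂ) → ℂ} [Fintype G]

/-- The norm of a section. -/
noncomputable def nm (G : Subgroup ((Fin n → ℂ) ≃ₗ[ℂ] (Fin n → ℂ))) [Fintype G]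
    (s : (Fin n → ℂ) → ℂ) (v : Fin n → ℂ) : ℂ :=
  ∏ g : G, s ((g : (Fin n → ℂ) ≃ₗ[ℂ] (Fin n → ℂ)) v)

theorem prod_O {κ : Type*} (T : Finset κ) (f : κ → (Fin n → ℂ) → ℂ) {a : ℕ}
    (hf : ∀ i ∈ T, f i =O[𝓝 0] fun v : Fin n → ℂ => ‖v‖ ^ a) :
    (fun v => ∏ i ∈ T, f i v) =O[𝓝 0] fun v : Fin n → ℂ => ‖v‖ ^ (a * T.card) := by
  classical
  induction T using Finset.induction_on with
  | empty =>
    simp only [Finset.prod_empty, Finset.card_empty, mul_zero, pow_zero]
    exact isBigO_of_le _ fun v => by simp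
  | insert i s hi ih =>
    have h1 := (hf i (Finset.mem_insert_self _ _)).mul
      (ih fun j hj => hf j (Finset.mem_insert_of_mem hj))
    refine h1.congr (fun v => ?_) (fun v => ?_)
    · rw [Finset.prod_insert hi]
    · rw [Finset.card_insert_of_notMem hi]
      ring

theorem linear_O {s : (Fin n → ℂ) → ℂ} {a : ℕ} (hs : s =O[𝓝 0] fun v => ‖v‖ ^ a)
    (A : (Fin n → ℂ) ≃ₗ[ℂ] (Fin n → ℂ)) :
    (fun v => s (A v)) =O[𝓝 0] fun v => ‖v‖ ^ a := by
  have hA : Differentiable ℂ (A : (Fin n → ℂ) → (Fin n → ℂ)) :=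
    Pool.Agent.K6.H19.GI.differentiable_equiv A
  have h2 : Tendsto (fun v => A v) (𝓝 0) (𝓝 0) := by
    have := hA.continuous.tendsto 0
    rwa [map_zero] at this
  refine (hs.comp_tendsto h2).trans ?_
  have h4 : (fun v => A v) =O[𝓝 0] fun v => v := by
    have h5 := (hA 0).hasFDerivAt.isBigO_sub
    simpa using h5
  exact (h4.norm_norm).pow a

theorem k_thB [Nonempty (Fin n)] (hh : IsHermitian h)
    (hint : ∀ u w, Lat u → Lat w → IsGau (h u w)) (b N : ℕ) :
    ((thB 1 hh hint b).pow N).k = ((N * (4 * b) : ℕ) : ℤ) := by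
  have h2 : ((thB 1 hh hint b).pow N).k = N * (4 * b) := rfl
  rw [h2]
  push_cast
  ring

theorem k_qB [Nonempty (Fin n)] (hG : PresLat G) (hh : IsHermitian h)
    (hint : ∀ u w, Lat u → Lat w → IsGau (h u w)) (hi : Inv G h) (b N : ℕ) :
    ((qB hG hh hint hi b).toBlBundle.pow N).k = ((N * (4 * b) * Fintype.card G : ℕ) : ℤ) := by
  have h2 : ((qB hG hh hint hi b).toBlBundle.pow N).k = N * (Fintype.card G * (4 * b)) := rfl
  rw [h2]
  push_cast
  ring

/-- The norm of a section is a section. -/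
theorem nm_section [Nonempty (Fin n)] (hG : PresLat G) (hh : IsHermitian h)
    (hint : ∀ u w, Lat u → Lat w → IsGau (h u w)) (hi : Inv G h) {b N : ℕ}
    {s : (Fin n → ℂ) → ℂ} (hs : ((thB 1 hh hint b).pow N).IsSection s) :
    ((qB hG hh hint hi b).toBlBundle.pow N).IsSection (nm G s) := by
  refine ⟨?_, fun γ v => ?_, ?_⟩
  · exact prod_differentiable Finset.univ
      (fun (g : G) v => s ((g : (Fin n → ℂ) ≃ₗ[ℂ] (Fin n → ℂ)) v))
      fun g => hs.holo.comp (Pool.Agent.K6.H19.GI.differentiable_equiv _)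
  · obtain ⟨g₀, l, hl, h4⟩ := grp_spec γ
    have h5 : ((qB hG hh hint hi b).toBlBundle.pow N).e γ v = ∏ _g : G, qE h γ v ^ N := by
      rw [Finset.prod_const, Finset.card_univ, ← pow_mul, mul_comm, pow_mul]
      rfl
    rw [h5]
    unfold nm
    have h6 : ∏ g : G, s ((g : (Fin n → ℂ) ≃ₗ[ℂ] (Fin n → ℂ)) v) =
        ∏ g : G, s (((g * g₀ : G) : (Fin n → ℂ) ≃ₗ[ℂ] (Fin n → ℂ)) v) :=
      (Fintype.prod_equiv (Equiv.mulRight g₀) _ _ fun g => rfl).symm
    rw [h6, ← Finset.prod_mul_distrib]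
    refine Finset.prod_congr rfl fun g _ => ?_
    set A : (Fin n → ℂ) ≃ₗ[ℂ] (Fin n → ℂ) := (g : (Fin n → ℂ) ≃ₗ[ℂ] (Fin n → ℂ)) with hA
    set B : (Fin n → ℂ) ≃ₗ[ℂ] (Fin n → ℂ) := (g₀ : (Fin n → ℂ) ≃ₗ[ℂ] (Fin n → ℂ)) with hB
    have hiA : ∀ u w, h (A u) (A w) = h u w := hi g g.2
    have hgv : ((g * g₀ : G) : (Fin n → ℂ) ≃ₗ[ℂ] (Fin n → ℂ)) v = A (B v) := rfl
    rw [hgv, h4, map_add]
    have hAl : Lat (A l) := hG g g.2 l hl
    have h7 := hs.eq (tr ⟨A l, hAl⟩) (A (B v))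
    rw [tr_act] at h7
    have h8 : A (B v) + (⟨A l, hAl⟩ : Pool.Agent.K6.H19.GI.lat n) = A (B v) + A l := rfl
    rw [h8] at h7
    rw [h7]
    congr 1
    have h9 : ((thB 1 hh hint b).pow N).e (tr ⟨A l, hAl⟩) (A (B v)) =
        thE h (tr ⟨A l, hAl⟩) (A (B v)) ^ N := rfl
    rw [h9, thE_eq hh (ζ := 1) (l := A l) (fun w => by
      have := tr_act ⟨A l, hAl⟩ w
      rw [one_smul]
      exact this), qE_eq hh h4, hiA, hiA, one_mul]
  · rw [k_qB, Int.toNat_natCast]
    have h1 := hs.ord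
    rw [k_thB, Int.toNat_natCast] at h1
    exact prod_O Finset.univ (fun (g : G) v => s ((g : (Fin n → ℂ) ≃ₗ[ℂ] (Fin n → ℂ)) v))
      fun g _ => linear_O h1 _

/-- The norm of a section does not vanish in the direction `u`. -/
theorem nm_nonvanishing [Nonempty (Fin n)] (hG : PresLat G) (hh : IsHermitian h)
    (hint : ∀ u w, Lat u → Lat w → IsGau (h u w)) (hi : Inv G h) {b N : ℕ}
    {s : (Fin n → ℂ) → ℂ} {u : Fin n → ℂ}
    (hs : ∀ g : G, ((thB 1 hh hint b).pow N).NonvanishingAt s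
      ((g : (Fin n → ℂ) ≃ₗ[ℂ] (Fin n → ℂ)) u)) :
    ((qB hG hh hint hi b).toBlBundle.pow N).NonvanishingAt (nm G s) u := by
  choose c hc hlim using hs
  refine ⟨∏ g : G, c g, Finset.prod_ne_zero_iff.2 fun g _ => hc g, ?_⟩
  rw [k_qB]
  have h1 : ∀ t : ℂ, nm G s (t • u) / t ^ ((N * (4 * b) * Fintype.card G : ℕ) : ℤ) =
      ∏ g : G, (s (t • (g : (Fin n → ℂ) ≃ₗ[ℂ] (Fin n → ℂ)) u) / t ^ (N * (4 * b))) := by
    intro t
    unfold nm
    rw [Finset.prod_div_distrib, Finset.prod_const, Finset.card_univ, zpow_natCast, pow_mul]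
    simp only [map_smul]
  simp only [h1]
  refine tendsto_finsetProd _ fun g _ => ?_
  have h2 := hlim g
  rw [k_thB] at h2
  simpa only [zpow_natCast] using h2

end Pool.Agent.K6.H19.GK
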